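import Pool.Agent.H24.SCG2.Stmts4

/-!
# Row FEX of board scg2: the parameter for `q = 3 ^ e`, `e ≥ 3` odd
-/

set_option autoImplicit false

namespace Pool.SCG

theorem neg_one_not_sq {F : Type} [Field F] [Finite F] (h3 : (3 : F) = 0)
    (hsq : ¬ IsSquare (Nat.card F)) : ¬ IsSquare (-1 : F) := by
  haveI := Fintype.ofFinite F
  have h3' : ((3 : ℕ) : F) = 0 := by exact_mod_cast h3
  haveI : Fact (Nat.Prime 3) := ⟨by norm_num⟩
  have hch : ringChar F = 3 := by
    have h1 : ringChar F ∣ 3 := ringChar.dvd h3'
    rcases (Nat.dvd_prime (by norm_num)).1 h1 with h | h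
    · exact absurd h (CharP.ringChar_ne_one)
    · exact h
  haveI : CharP F 3 := by rw [← hch]; exact ringChar.charP F
  obtain ⟨n, hn, hcard⟩ := FiniteField.card F 3
  rw [Nat.card_eq_fintype_card] at hsq
  rw [FiniteField.isSquare_neg_one_iff]
  push Not
  rw [hcard] at hsq ⊢
  have hodd : Odd (n : ℕ) := by
    by_contra h
    rw [Nat.not_odd_iff_even] at h
    obtain ⟨k, hk⟩ := h
    exact hsq ⟨3 ^ k, by rw [hk, pow_add]⟩
  obtain ⟨k, hk⟩ := hodd
  rw [hk, pow_add, pow_mul]
  norm_num [Nat.mul_mod, Nat.pow_mod]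

theorem fex_thm : FEXStmt := by
  intro F _ _ ⟨h3, hsq⟩ hcard
  haveI := Fintype.ofFinite F
  classical
  have hm1 := neg_one_not_sq h3 hsq
  have hchar : ringChar F ≠ 2 := by
    intro h
    have h2 : (2 : F) = 0 := by
      have := ringChar.Nat.cast_ringChar (R := F)
      rw [h] at this
      exact_mod_cast this
    have : (1 : F) = 3 - 2 := by norm_num
    rw [h3, h2] at this
    simp at this
  have h12 : (-1 : F) ≠ 1 := by
    intro h
    exact hm1 ⟨1, by rw [h]; ring⟩
  obtain ⟨g, hg⟩ := IsCyclic.exists_generator (α := Fˣ)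
  -- `g` is not a square
  have hgsq : ¬ IsSquare (g : F) := by
    intro hs
    have h1 : ∀ x : Fˣ, IsSquare (x : F) := by
      intro x
      obtain ⟨k, hk⟩ := (Subgroup.mem_zpowers_iff).1 (hg x)
      rw [← hk, Units.val_zpow_eq_zpow_val]
      exact hs.zpow k
    have h2 := h1 (-1)
    simp only [Units.val_neg, Units.val_one] at h2
    exact hm1 h2
  have hneg : IsSquare (-(g : F)) := by
    have hx := FiniteField.isSquare_iff hchar (a := -(g : F)) (by simp)
    have hy := FiniteField.isSquare_iff hchar (a := (g : F)) (by simp)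
    have hz := FiniteField.isSquare_iff hchar (a := (-1 : F)) (by simp)
    have d1 := FiniteField.pow_dichotomy hchar (a := (g : F)) (by simp)
    have d2 := FiniteField.pow_dichotomy hchar (a := (-1 : F)) (by simp)
    rw [hx]
    have e1 : (g : F) ^ (Fintype.card F / 2) = -1 := by
      rcases d1 with h | h
      · exact absurd (hy.2 h) hgsq
      · exact h
    have e2 : (-1 : F) ^ (Fintype.card F / 2) = -1 := by
      rcases d2 with h | h
      · exact absurd (hz.2 h) hm1
      · exact h
    have e3 : (-(g : F)) = (-1) * g := by ring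
    rw [e3, mul_pow, e1, e2]
    ring
  obtain ⟨s, hs⟩ := hneg
  have hs2 : -(s ^ 2) = (g : F) := by
    rw [sq, ← hs]; ring
  have hcard3 : 3 < Nat.card F := by
    rw [Nat.card_eq_fintype_card] at hcard hsq ⊢
    have h0 : Fintype.card F ≠ 0 := Fintype.card_ne_zero
    have hdvd : 3 ∣ Fintype.card F := by
      have h3' : ((3 : ℕ) : F) = 0 := by exact_mod_cast h3
      have h1 : ringChar F ∣ 3 := ringChar.dvd h3'
      have h4 : ringChar F = 3 := by
        rcases (Nat.dvd_prime (by norm_num)).1 h1 with h | h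
        · exact absurd h (CharP.ringChar_ne_one)
        · exact h
      have h5 : ringChar F ∣ Fintype.card F := by
        apply ringChar.dvd
        exact FiniteField.cast_card_eq_zero F
      rwa [h4] at h5
    have := Nat.le_of_dvd (by omega) hdvd
    omega
  -- a unit different from `1` and `-1`
  have hl : ∃ l : F, l ≠ 0 ∧ l ≠ 1 ∧ l ≠ -1 := by
    by_contra hcon
    push Not at hcon
    have hsub : (Finset.univ : Finset F) ⊆ {0, 1, -1} := by
      intro x _
      by_cases h0 : x = 0
      · simp [h0]
      · by_cases h1 : x = 1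
        · simp [h1]
        · simp [hcon x h0 h1]
    have := Finset.card_le_card hsub
    have h2 : ({0, 1, -1} : Finset F).card ≤ 3 := Finset.card_le_three
    rw [Finset.card_univ] at this
    rw [Nat.card_eq_fintype_card] at hcard3
    omega
  have hord : (g : F) ≠ 1 ∧ (g : F) ≠ -1 := by
    obtain ⟨l, hl0, hl1, hl2⟩ := hl
    obtain ⟨k, hk⟩ := (Subgroup.mem_zpowers_iff).1 (hg (Units.mk0 l hl0))
    have hk' : (g : F) ^ k = l := by
      have := congrArg (fun u : Fˣ => (u : F)) hk
      simpa [Units.val_zpow_eq_zpow_val] using this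
    constructor
    · intro h
      rw [h, one_zpow] at hk'
      exact hl1 hk'.symm
    · intro h
      rw [h] at hk'
      rcases Int.even_or_odd k with he | ho
      · rw [he.neg_one_zpow] at hk'
        exact hl1 hk'.symm
      · rw [ho.neg_one_zpow] at hk'
        exact hl2 hk'.symm
  refine ⟨s, ⟨?_, ?_, ?_, ?_, ?_, ?_⟩⟩
  · rintro rfl
    apply g.ne_zero
    rw [← hs2]; ring
  · intro h
    apply hord.2
    rw [← hs2, h]
  · intro h
    apply hord.1
    rw [← hs2, h]; ring
  · intro h
    exact hm1 ⟨s ^ 2, by rw [← h]; ring⟩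
  · intro x hx
    rw [hs2]
    obtain ⟨k, hk⟩ := (Submonoid.mem_powers_iff _ _).1
      ((mem_powers_iff_mem_zpowers (x := g) (y := Units.mk0 x hx)).2 (hg _))
    refine ⟨k, ?_⟩
    have := congrArg (fun u : Fˣ => (u : F)) hk
    simpa using this
  · obtain ⟨l, hl0, hl1, hl2⟩ := hl
    refine ⟨l, hl0, ?_, ?_⟩
    · intro h
      have : (l - 1) * (l + 1) = 0 := by
        rw [show (l - 1) * (l + 1) = l ^ 2 - 1 by ring, h]; ring
      rcases mul_eq_zero.1 this with h1 | h1
      · exact hl1 (by linear_combination h1)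
      · exact hl2 (by linear_combination h1)
    · intro h
      have hne : l - 1 ≠ 0 := fun h1 => hl1 (by linear_combination h1)
      refine hm1 ⟨(l + 1) / (l - 1), ?_⟩
      field_simp
      linear_combination -h

end Pool.SCG
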