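import Pool.Agent.H24.SCG2.Base3
import Pool.Agent.H24.SCG2.Stmts4

/-!
Module FGG of the project SCG2: generation for the family in characteristic three.
-/

set_option autoImplicit false

namespace Pool.Agent.H22.SCG2

open Pool.SCG Matrix

variable {F : Type} [Field F]

/-- powers of a torus element -/
theorem gis_pow {t : MulAut (SL3 F)} {m : F} (h : GIs t false (dg m 1 m⁻¹)) (k : ℕ) :
    GIs (t ^ k) false (dg (m ^ k) 1 (m ^ k)⁻¹) := by
  induction k with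
  | zero =>
    have e : dg (m ^ 0) 1 (m ^ 0)⁻¹ = (1 : M3 F) := by
      ext i j
      fin_cases i <;> fin_cases j <;> simp [dg]
    rw [e, pow_zero]
    exact gis_one
  | succ k ih =>
    have e : dg (m ^ (k + 1)) 1 (m ^ (k + 1))⁻¹ =
        dg (m ^ k) 1 (m ^ k)⁻¹ * dg m 1 m⁻¹ := by
      rw [pow_succ, mul_inv]
      ext i j
      fin_cases i <;> fin_cases j <;>
        simp [dg, Matrix.mul_apply, Fin.sum_univ_three]
    rw [e, pow_succ]
    exact ih.mul_inner h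

theorem an_mul (l : F) : An l * An 1 = dg l 1 l⁻¹ := by
  ext i j
  fin_cases i <;> fin_cases j <;> simp [An, dg, Matrix.mul_apply, Fin.sum_univ_three]

theorem fgg_thm (hCON : CONStmt) (hUUG : UUGStmt) : FGGStmt := by
  intro F _ s h3 hs a b c d hG
  have h2 : (2 : F) ≠ 0 := by
    intro h
    have h1 : (1 : F) = 0 := by linear_combination h3 - h
    exact one_ne_zero h1
  set H := Subgroup.closure ({a, b, c, d} : Set (MulAut (SL3 F))) with hH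
  have ha : a ∈ H := Subgroup.subset_closure (by simp)
  have hb : b ∈ H := Subgroup.subset_closure (by simp)
  have hc : c ∈ H := Subgroup.subset_closure (by simp)
  have hd : d ∈ H := Subgroup.subset_closure (by simp)
  have hbc : GIs (b * c) false (dg (-(s ^ 2)) 1 (-(s ^ 2))⁻¹) := by
    have h := hG.hb.mul_inner hG.hc
    rwa [an_mul] at h
  have htor : ∀ l : F, l ≠ 0 → ∃ t ∈ H, GIs t false (dg l 1 l⁻¹) := by
    intro l hl
    obtain ⟨k, hk⟩ := hs.gen l hl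
    refine ⟨(b * c) ^ k, H.pow_mem (H.mul_mem hb hc) k, ?_⟩
    have h := gis_pow hbc k
    rwa [hk] at h
  have s2 : s ^ 2 ≠ 0 := pow_ne_zero _ hs.s0
  have hn : s - 1 ≠ 0 := by
    intro h
    apply hs.s1
    linear_combination (s + 1) * h
  have hN : s + 1 ≠ 0 := by
    intro h
    apply hs.s1
    linear_combination (s - 1) * h
  have hdl : s ^ 2 + (s ^ 2)⁻¹ ≠ 0 := by
    intro h
    apply hs.s4
    have h1 : s ^ 2 * (s ^ 2 + (s ^ 2)⁻¹) = 0 := by rw [h, mul_zero]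
    rw [mul_add, mul_inv_cancel₀ s2] at h1
    linear_combination h1
  have hdl2 : 2 + (s ^ 2 + (s ^ 2)⁻¹) ≠ 0 := by
    intro h
    have h1 : s ^ 2 * (2 + (s ^ 2 + (s ^ 2)⁻¹)) = 0 := by rw [h, mul_zero]
    rw [mul_add, mul_add, mul_inv_cancel₀ s2] at h1
    have h4 : (s ^ 2 + 1) * (s ^ 2 + 1) = 0 := by linear_combination h1
    have h5 : s ^ 2 + 1 = 0 := mul_self_eq_zero.1 h4
    apply hs.s2
    linear_combination h5
  have hg1 : -((s ^ 2 + (s ^ 2)⁻¹) * (s - 1) ^ 6) ≠ 0 :=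
    neg_ne_zero.2 (mul_ne_zero hdl (pow_ne_zero _ hn))
  have hg2 : (s ^ 2 + (s ^ 2)⁻¹) * (s + 1) ^ 6 ≠ 0 := mul_ne_zero hdl (pow_ne_zero _ hN)
  have hu1 : ∀ x : F, InA H (Ug (-((s ^ 2 + (s ^ 2)⁻¹) * (s - 1) ^ 6)) x) := by
    refine hCON F h2 hs.lam H a c _ ((s - 1) ^ 3) 1 (-(s - 1) ^ 3) hg1 one_ne_zero ?_ ?_ ha hc
      htor hG.hc hG.ha
    · exact neg_ne_zero.2 (pow_ne_zero _ hn)
    · have e : 2 * (s - 1) ^ 3 * -(s - 1) ^ 3 + -((s ^ 2 + (s ^ 2)⁻¹) * (s - 1) ^ 6) * 1 ^ 2 =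
          -((s - 1) ^ 6 * (2 + (s ^ 2 + (s ^ 2)⁻¹))) := by ring
      rw [e]
      exact neg_ne_zero.2 (mul_ne_zero (pow_ne_zero _ hn) hdl2)
  have hu2 : ∀ x : F, InA H (Ug ((s ^ 2 + (s ^ 2)⁻¹) * (s + 1) ^ 6) x) := by
    refine hCON F h2 hs.lam H d c _ (s * (s + 1) ^ 3) (-1) ((s + 1) ^ 3 * s⁻¹) hg2
      (neg_ne_zero.2 one_ne_zero) ?_ ?_ hd hc htor hG.hc hG.hd
    · exact mul_ne_zero (pow_ne_zero _ hN) (inv_ne_zero hs.s0)
    · have e : 2 * (s * (s + 1) ^ 3) * ((s + 1) ^ 3 * s⁻¹) +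
          (s ^ 2 + (s ^ 2)⁻¹) * (s + 1) ^ 6 * (-1) ^ 2 =
          (s + 1) ^ 6 * (2 * (s * s⁻¹) + (s ^ 2 + (s ^ 2)⁻¹)) := by ring
      rw [e, mul_inv_cancel₀ hs.s0, mul_one]
      exact mul_ne_zero (pow_ne_zero _ hN) hdl2
  refine hUUG F h2 H c _ _ hg1 hg2 ?_ hc hG.hc hu1 hu2
  intro h
  have h1 : (s ^ 2 + (s ^ 2)⁻¹) * ((s + 1) ^ 6 + (s - 1) ^ 6) = 0 := by
    linear_combination -h
  rcases mul_eq_zero.1 h1 with h4 | h4
  · exact hdl h4
  · have h5 : (2 * (s ^ 2 + 1)) ^ 3 = 0 := by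
      linear_combination h4 - (-2 - 2 * s ^ 6 + 2 * s ^ 4 + 2 * s ^ 2) * h3
    have h6 : 2 * (s ^ 2 + 1) = 0 := pow_eq_zero_iff (by norm_num) |>.1 h5
    rcases mul_eq_zero.1 h6 with h7 | h7
    · exact h2 h7
    · apply hs.s2
      linear_combination h7

end Pool.Agent.H22.SCG2
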